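import Pool.Agent.P.MP_0b1ded_al.Br.Main

/-! Vanishing of homomorphisms from a tensor product in the category `𝒳(G)` of a connected
reductive group over the algebraic closure of a finite field. -/

namespace Pool.Agent.Results.MP_0b1ded_al.HomZero

open Pool.Agent.AG Pool.Agent.AG.Cat

theorem result (p : ℕ) [Fact p.Prime] (K : Type) [Field K] [Algebra (ZMod p) K]
    [IsAlgClosure (ZMod p) K] {n : ℕ} (G B T : Subgroup (GL (Fin n) K)) (hG : Red G)
    (hB : Borel G B) (hT : MaxTor G T) (hTB : T ≤ B) (k : Type*) [Field k] [CharZero k]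
    (M N L : Type*) [AddCommGroup M] [Module k M] [AddCommGroup N] [Module k N] [AddCommGroup L]
    [Module k L] (ρ : Representation k G M) (σ : Representation k G N)
    (μ : Representation k G L) (hM : InX G B T ρ) (hN : InX G B T σ) (hL : InX G B T μ)
    (hd : wts μ (T.subgroupOf G) ∩ wts (ρ.tprod σ) (T.subgroupOf G) = ∅)
    (f : (ρ.tprod σ).IntertwiningMap μ) : f.toLinearMap = 0 :=
  hom_main p K G B T hG hB hT hTB k M N L ρ σ μ hM hN hL hd f

end Pool.Agent.Results.MP_0b1ded_al.HomZero
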